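import Pool.Agent.H38.Hau.Defs
import Pool.Agent.H38.ER.Surj

/-!
Coordinates, sums of squares, isometries and a compactness argument.
-/

namespace Pool.Agent.H38.Hau

open Pool.Agent.H38.NP Pool.Agent.H38.ER Finset Filter Topology

abbrev E (D : ℕ) := EuclideanSpace ℝ (Fin D)

noncomputable def ex {D : ℕ} (v : E D) (i : ℕ) : ℝ := if h : i < D then v ⟨i, h⟩ else 0

noncomputable def co {D : ℕ} (v : E D) (i : ℕ) : ℝ := ex v (i + 2)

theorem ex_add {D} (p q : E D) (i) : ex (p + q) i = ex p i + ex q i := by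
  unfold ex; split_ifs <;> simp
theorem ex_sub {D} (p q : E D) (i) : ex (p - q) i = ex p i - ex q i := by
  unfold ex; split_ifs <;> simp
theorem ex_neg {D} (p : E D) (i) : ex (-p) i = -ex p i := by
  unfold ex; split_ifs <;> simp
theorem co_add {D} (p q : E D) : co (p + q) = co p + co q := funext fun _ => ex_add _ _ _
theorem co_sub {D} (p q : E D) : co (p - q) = co p - co q := funext fun _ => ex_sub _ _ _
theorem co_neg {D} (p : E D) : co (-p) = -co p := funext fun _ => ex_neg _ _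

def S (o l : ℕ) (u : ℕ → ℝ) : ℝ := ∑ i ∈ range l, u (o + i) ^ 2

theorem S_nn {o l u} : 0 ≤ S o l u := sum_nonneg fun _ _ => sq_nonneg _

theorem S_le {o l} {f g h : ℕ → ℝ} {a b c : ℝ}
    (e : ∀ i, a * f i ^ 2 ≤ b * g i ^ 2 + c * h i ^ 2) :
    a * S o l f ≤ b * S o l g + c * S o l h := by
  simp only [S, mul_sum, ← sum_add_distrib]; exact sum_le_sum fun _ _ => e _

theorem S_one {o l u i} (h : i < l) : u (o + i) ^ 2 ≤ S o l u :=
  single_le_sum (f := fun i => u (o + i) ^ 2) (fun _ _ => sq_nonneg _) (mem_range.2 h)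

theorem S_congr {o l} {u v : ℕ → ℝ} (h : ∀ i < l, u (o + i) ^ 2 = v (o + i) ^ 2) :
    S o l u = S o l v := sum_congr rfl fun i hi => h i (mem_range.1 hi)

theorem S_zero {o l u} (h : S o l u = 0) {i} (hi : i < l) : u (o + i) = 0 :=
  pow_eq_zero_iff two_ne_zero |>.1 (le_antisymm (h ▸ S_one hi) (sq_nonneg _))

theorem S_bd {o l u} {c : ℝ} (h : ∀ i < l, u (o + i) ^ 2 ≤ c) : S o l u ≤ l * c := by
  simpa [S] using sum_le_card_nsmul _ _ _ fun i hi => h i (mem_range.1 hi)

variable {k m n : ℕ}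

def mk3 (k m n : ℕ) (x y z : ℕ → ℝ) (i : ℕ) : ℝ :=
  if i < k then x i else if i < k + m then y i else if i < k + m + n then z i else 0

theorem mk_x {x y z i} (h : i < k) : mk3 k m n x y z (0 + i) = x (0 + i) := if_pos (by omega)
theorem mk_y {x y z i} (h : i < m) : mk3 k m n x y z (k + i) = y (k + i) := by
  simp [mk3, h]
theorem mk_z {x y z i} (h : i < n) : mk3 k m n x y z (k + m + i) = z (k + m + i) := by
  simp (disch := omega) [mk3, if_neg, h]

theorem pt (t w : ℝ) (x y z) : ∃ p : E (k + m + n + 2), ex p 0 = t ∧ ex p 1 = w ∧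
    co p = mk3 k m n x y z := by
  refine ⟨WithLp.toLp 2 fun i => if i.val = 0 then t else if i.val = 1 then w else
    mk3 k m n x y z (i - 2), by simp [ex], by simp [ex], funext fun i => ?_⟩
  unfold co ex
  split_ifs with h
  · simp
  · simp (disch := omega) [mk3, if_neg]

theorem nsq (p : E (k + m + n + 2)) : ‖p‖ ^ 2 = ex p 0 ^ 2 + ex p 1 ^ 2 + S 0 k (co p) +
    S k m (co p) + S (k + m) n (co p) := by
  have : ∑ i : Fin (k + m + n + 2), p i ^ 2 = ∑ i ∈ range (k + m + n + 2), ex p i ^ 2 := by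
    rw [← Fin.sum_univ_eq_sum_range fun i => ex p i ^ 2]; simp [ex]
  rw [EuclideanSpace.real_norm_sq_eq, this, sum_range_succ', sum_range_succ', sum_range_add,
    sum_range_add]
  simp only [S, co, zero_add, add_assoc]; ring

noncomputable def P (k m n : ℕ) : E (k + m + n + 2) →ₗ[ℝ] E (k + m + n + 2) where
  toFun p := WithLp.toLp 2 fun i => if k + 2 ≤ i.val ∧ i.val < k + m + 2 then 0 else p i
  map_add' p q := by ext i; simp; split_ifs <;> simp
  map_smul' c p := by ext i; simp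

theorem P_sq (p : E (k + m + n + 2)) : ‖P k m n p‖ ^ 2 = ex p 0 ^ 2 + ex p 1 ^ 2 + S 0 k (co p) +
    S (k + m) n (co p) := by
  have e : ∀ i, ex (P k m n p) i = if k + 2 ≤ i ∧ i < k + m + 2 then 0 else ex p i := fun i => by
    unfold ex; split_ifs <;> simp [P, *]
  rw [nsq, e, e, if_neg (by omega), if_neg (by omega), S_congr (v := co p) fun i hi => by
    rw [co, e, if_neg (by omega), co], S_congr (o := k) (v := 0) fun i hi => by
    rw [co, e, if_pos (by omega)]; rfl, S_congr (o := k + m) (v := co p) fun i hi => by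
    rw [co, e, if_neg (by omega), co]]
  simp [S]

theorem P_le (p : E (k + m + n + 2)) : ‖P k m n p‖ ≤ ‖p‖ :=
  (pow_le_pow_iff_left₀ (norm_nonneg _) (norm_nonneg _) two_ne_zero).1 (by
    rw [P_sq, nsq]; linarith [S_nn (o := k) (l := m) (u := co p)])

theorem iso {D} {f g : E D → E D} (hf : Isometry f) (hg : Isometry g) :
    ∃ (T : E D →ₗᵢ[ℝ] E D) (h : E D), ∀ a b, dist (f a) (g b) = ‖T a + h - b‖ := by
  have s : Function.Surjective g := by
    let G := hg.affineIsometryOfStrictConvexSpace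
    exact G.toAffineMap.linear_surjective_iff.1
      (LinearMap.injective_iff_surjective.1 G.linearIsometry.injective)
  choose j hj using s
  have : Isometry (j ∘ f) := Isometry.of_dist_eq fun a b => by
    rw [← hg.dist_eq, Function.comp, Function.comp, hj, hj, hf.dist_eq]
  let H := this.affineIsometryOfStrictConvexSpace
  refine ⟨H.linearIsometry, H 0, fun a b => ?_⟩
  have e := H.map_vadd 0 a
  simp only [vadd_eq_add, add_zero] at e
  rw [← e, ← hj (f a), hg.dist_eq, dist_eq_norm]; rfl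

theorem lim {Φ : (ℕ → ℝ) → Prop} (hc : IsClosed {u | Φ u}) (h : ∀ δ : ℝ, 0 < δ → δ ≤ 1 →
    ∃ x : ℕ → ℝ, ∀ y, cube y → ∃ u, cube u ∧ Φ u ∧ (∀ i < k, |u i - x i| ≤ δ) ∧
      (∀ i < m, |u (k + i) - y (k + i)| ≤ 2 * δ) ∧ ∀ i, k + m + n ≤ i → u i = 0) :
    ∃ x, cube x ∧ ∀ y, cube y → ∃ z, cube z ∧ Φ (mk3 k m n x y z) := by
  choose x u h1 h2 h3 h4 h5 using fun j : ℕ => h (1 / (j + 1)) (by positivity)
    (by rw [div_le_one (by positivity)]; simp)
  have K : ∀ y hy, ∃ z, cube z ∧ Tendsto (fun j => u j y hy) (hyperfilter ℕ) (𝓝 z) := fun y hy => by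
    obtain ⟨z, hz, e⟩ := (isCompact_Icc (a := (-1 : ℕ → ℝ)) (b := 1)).ultrafilter_le_nhds
      ((hyperfilter ℕ).map fun j => u j y hy) (by
        simp only [Ultrafilter.coe_map, le_principal_iff, Filter.mem_map]
        exact Eventually.of_forall fun j => ⟨fun i => (abs_le.1 (h1 j y hy i)).1,
          fun i => (abs_le.1 (h1 j y hy i)).2⟩)
    exact ⟨z, fun i => abs_le.2 ⟨hz.1 i, hz.2 i⟩, e⟩
  have t0 : Tendsto (fun j : ℕ => 2 * (1 / ((j : ℝ) + 1))) (hyperfilter ℕ) (𝓝 0) := by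
    simpa using (tendsto_one_div_add_atTop_nhds_zero_nat.const_mul (2 : ℝ)).mono_left
      (Nat.cofinite_eq_atTop ▸ hyperfilter_le_cofinite)
  have eq : ∀ {a b : ℕ → ℝ} {p q : ℝ}, Tendsto a (hyperfilter ℕ) (𝓝 p) →
      Tendsto b (hyperfilter ℕ) (𝓝 q) → (∀ j, |a j - b j| ≤ 2 * (1 / ((j : ℝ) + 1))) → p = q :=
    fun ha hb e => sub_eq_zero.1 (abs_nonpos_iff.1 (le_of_tendsto_of_tendsto' (ha.sub hb).abs t0 e))
  have c0 : cube 0 := fun _ => by simp
  obtain ⟨x0, hx, e0⟩ := K 0 c0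
  refine ⟨x0, hx, fun y hy => ?_⟩
  obtain ⟨z, hz, e⟩ := K y hy
  refine ⟨z, hz, ?_⟩
  have : mk3 k m n x0 y z = z := funext fun i => by
    unfold mk3
    split_ifs with a b c
    · refine eq (tendsto_pi_nhds.1 e0 i) (tendsto_pi_nhds.1 e i) fun j => ?_
      have := abs_le.1 (h3 j 0 c0 i a); have := abs_le.1 (h3 j y hy i a)
      rw [abs_le]; constructor <;> linarith
    · refine (eq (tendsto_pi_nhds.1 e i) tendsto_const_nhds fun j => ?_).symm
      have := h4 j y hy (i - k) (by omega)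
      rwa [show k + (i - k) = i by omega] at this
    · rfl
    · refine (eq (tendsto_pi_nhds.1 e i) tendsto_const_nhds fun j => ?_).symm
      rw [h5 j y hy i (by omega)]; simp; positivity
  rw [this]
  exact hc.mem_of_tendsto e (Eventually.of_forall fun j => h2 j y hy)

end Pool.Agent.H38.Hau
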