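import Pool.Agent.H38.Hau.Geo

/-!
A good isometry yields a witness.
-/

namespace Pool.Agent.H38.Hau

open Finset Filter Topology

variable {k m n : ℕ} {d : ℝ} {Φ : (ℕ → ℝ) → Prop}

theorem Bf {t w u} (hk : k ≤ d ^ 2) (h : InB k m n d Φ t w u) :
    t ^ 2 + S (k + m) n u + S 0 k u ≤ 8 * d ^ 2 ∧
      (w = 0 ∨ w ^ 2 = 441 * d ^ 2 ∧ t ^ 2 + S (k + m) n u = 0) := by
  have := sq_nonneg d
  rcases h with (⟨a, b, c⟩ | ⟨a, b, c⟩) | ⟨a, b, c, -⟩
  · exact ⟨by linarith, .inl a⟩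
  · exact ⟨by linarith, .inr ⟨a, b⟩⟩
  · have := S_bd c
    exact ⟨by linarith, .inl a⟩

theorem P0 {a : E (k + m + n + 2)} : P k m n a = 0 ↔ ex a 0 = 0 ∧ ex a 1 = 0 ∧ S 0 k (co a) = 0 ∧
    S (k + m) n (co a) = 0 := by
  rw [← norm_eq_zero, ← pow_eq_zero_iff two_ne_zero, P_sq]
  have n1 := @S_nn 0 k (co a)
  have n2 := @S_nn (k + m) n (co a)
  exact ⟨fun h => ⟨by nlinarith, by nlinarith, by nlinarith, by nlinarith⟩, fun h => by simp [h]⟩

theorem PP (a : E (k + m + n + 2)) : P k m n (a - P k m n a) = 0 := by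
  ext i; by_cases h : k + 2 ≤ i.val ∧ i.val < k + m + 2 <;> simp [P, h]

theorem pin (hd : 1 ≤ d) (hk : k ≤ d ^ 2) {r : ℝ} (hr : r ≤ 2 * d)
    {T : E (k + m + n + 2) →ₗᵢ[ℝ] E (k + m + n + 2)} {h : E (k + m + n + 2)}
    (H : ∀ a ∈ A k m n d, ∃ b ∈ B k m n d Φ, ‖T a + h - b‖ < r) :
    (∀ y, P k m n y = 0 → ∃ a ∈ A k m n d, T a = y) ∧
      ex h 0 ^ 2 + S (k + m) n (co h) + ex h 1 ^ 2 < r ^ 2 - d ^ 2 := by
  have kA : ∀ a, P k m n a = 0 → a ∈ A k m n d := fun a ha => by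
    have := P0.1 ha
    exact .inr ⟨by simp [this], .inl this.2.1⟩
  have mp : ∀ a, P k m n a = 0 → P k m n (T a) = 0 := fun a ha => by
    by_contra hc
    have c := norm_pos_iff.2 hc
    obtain ⟨b, hb, e⟩ := H (((r + 22 * d + ‖h‖) / ‖P k m n (T a)‖) • a) (kA _ (by simp [ha]))
    have b1 : ‖P k m n b‖ ≤ 22 * d := by
      refine (abs_le_of_sq_le_sq' ?_ (by linarith)).2
      have := Bf hk hb
      rw [P_sq]; rcases this.2 with e | e <;> nlinarith [this.1]
    have := (P_le _).trans_lt e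
    rw [map_sub, map_add, T.map_smul, map_smul] at this
    have q := norm_add_le (((r + 22 * d + ‖h‖) / ‖P k m n (T a)‖) • P k m n (T a) + P k m n h -
      P k m n b) (P k m n b - P k m n h)
    have := norm_sub_le (P k m n b) (P k m n h)
    have := P_le h
    rw [show ∀ a b c : E (k + m + n + 2), a + b - c + (c - b) = a from fun _ _ _ => by abel,
      norm_smul, Real.norm_eq_abs] at q
    have := mul_le_mul_of_nonneg_right (le_abs_self ((r + 22 * d + ‖h‖) / ‖P k m n (T a)‖)) c.le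
    rw [div_mul_cancel₀ _ c.ne'] at this
    linarith
  have sj : ∀ y, P k m n y = 0 → ∃ a, P k m n a = 0 ∧ T a = y := fun y hy => by
    obtain ⟨a, e⟩ := (LinearMap.injective_iff_surjective (f := T.toLinearMap.restrict
      (p := LinearMap.ker (P k m n)) (q := LinearMap.ker (P k m n)) mp)).1
      (fun a b e => Subtype.ext (T.injective (congrArg Subtype.val e))) ⟨y, hy⟩
    exact ⟨a, a.2, congrArg Subtype.val e⟩
  refine ⟨fun y hy => (sj y hy).imp fun a ha => ⟨kA a ha.1, ha.2⟩, ?_⟩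
  obtain ⟨a, a0, a1, a2⟩ := pt (k := k) (m := m) (n := n) 0 (20 * d) 0 0 0
  have a3 : co a = 0 := a2.trans (funext fun i => by simp [mk3])
  obtain ⟨b, hb, eb⟩ := H a (.inr ⟨by simp [a0, a3, S0], .inr (by rw [a1]; ring)⟩)
  obtain ⟨c, hc, ec⟩ := H (-a) (.inr ⟨by simp [ex_neg, co_neg, a0, a3, S0],
    .inr (by rw [ex_neg, a1]; ring)⟩)
  rw [map_neg] at ec
  have nq := nsq (T a)
  rw [T.norm_map, nsq, a0, a1, a3, S0, S0, S0] at nq
  have pq : 20 * d ≤ ‖P k m n (T a)‖ := by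
    obtain ⟨z, hz, e⟩ := sj _ (PP (T a))
    rw [show P k m n (T a) = T (a - z) by rw [map_sub, e]; abel, T.norm_map]
    refine (abs_le_of_sq_le_sq' ?_ (norm_nonneg _)).2
    rw [nsq, ex_sub a z 1, a1, (P0.1 hz).2.1, sub_zero]
    linarith [sq_nonneg (ex (a - z) 0), @S_nn 0 k (co (a - z)), @S_nn k m (co (a - z)),
      @S_nn (k + m) n (co (a - z))]
  generalize T a = q at *
  have bc : 36 * d ≤ ‖P k m n (b - c)‖ := by
    have e : (2 : ℝ) • P k m n q = P k m n (q + h - b) - P k m n (-q + h - c) + P k m n (b - c) := by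
      rw [← map_sub, ← map_add, ← map_smul, two_smul]; congr 1; abel
    have := norm_add_le (P k m n (q + h - b) - P k m n (-q + h - c)) (P k m n (b - c))
    rw [← e, norm_smul, Real.norm_two] at this
    linarith [norm_sub_le (P k m n (q + h - b)) (P k m n (-q + h - c)), P_le (q + h - b),
      P_le (-q + h - c)]
  have bc2 := pow_le_pow_left₀ (by linarith) bc 2
  rw [P_sq, ex_sub, ex_sub, co_sub] at bc2
  have s1 := S_le (o := 0) (l := k) (f := co b - co c) (g := co b) (h := co c) (a := 1) (b := 2)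
    (c := 2) fun i => by simp only [Pi.sub_apply]; nlinarith [sq_nonneg (co b i + co c i)]
  have s2 := S_le (o := k + m) (l := n) (f := co b - co c) (g := co b) (h := co c) (a := 1) (b := 2)
    (c := 2) fun i => by simp only [Pi.sub_apply]; nlinarith [sq_nonneg (co b i + co c i)]
  obtain ⟨f1, f2⟩ := Bf hk hb
  obtain ⟨g1, g2⟩ := Bf hk hc
  have d2 : 1 ≤ d ^ 2 := one_le_pow₀ hd
  have w : 1264 * d ^ 2 ≤ (ex b 1 - ex c 1) ^ 2 := by
    linarith [sq_nonneg (ex b 0 + ex c 0)]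
  obtain ⟨f2, f3⟩ := f2.resolve_left fun e => by
    rcases g2 with g | g <;> rw [e] at w <;> nlinarith
  obtain ⟨g2, g3⟩ := g2.resolve_left fun e => by rw [e] at w; nlinarith
  have w2 : ex c 1 = -ex b 1 := (sq_eq_sq_iff_eq_or_eq_neg.1 (g2.trans f2.symm)).resolve_left
    fun e => by rw [e] at w; nlinarith
  have n1 := @S_nn (k + m) n (co b)
  have n2 := @S_nn (k + m) n (co c)
  have b0 : ex b 0 = 0 := by nlinarith
  have c0 : ex c 0 = 0 := by nlinarith
  have b1 : S (k + m) n (co b) = 0 := by simpa [b0] using f3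
  have c1 : S (k + m) n (co c) = 0 := by simpa [c0] using g3
  have eb := pow_lt_pow_left₀ eb (norm_nonneg _) two_ne_zero
  have ec := pow_lt_pow_left₀ ec (norm_nonneg _) two_ne_zero
  have s3 := S_le (o := k + m) (l := n) (f := co h) (g := co q + co h) (h := -co q + co h) (a := 2)
    (b := 1) (c := 1) fun i => by
      simp only [Pi.add_apply, Pi.neg_apply]; nlinarith [sq_nonneg (co q i)]
  rw [nsq, S_congr (o := k + m) (v := co q + co h) fun i hi => by
    simp [co_sub, co_add, S_zero b1 hi]] at eb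
  rw [nsq, S_congr (o := k + m) (v := -co q + co h) fun i hi => by
    simp [co_sub, co_add, co_neg, S_zero c1 hi]] at ec
  simp only [ex_sub, ex_add, ex_neg, b0, c0, w2] at eb ec
  have q1 : |ex q 1| ≤ 20 * d := abs_le_of_sq_le_sq' (by
    linarith [sq_nonneg (ex q 0), @S_nn 0 k (co q), @S_nn k m (co q), @S_nn (k + m) n (co q)])
    (by linarith) |> abs_le.2
  have q2 : d ^ 2 ≤ (ex b 1 - ex q 1) ^ 2 := by
    have := abs_le.1 q1
    rcases sq_eq_sq_iff_eq_or_eq_neg.1 (show ex b 1 ^ 2 = (21 * d) ^ 2 by linarith) with e | e <;>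
      rw [e] <;> nlinarith
  linarith [@S_nn 0 k (co (q + h - b)), @S_nn k m (co (q + h - b)), @S_nn 0 k (co (-q + h - c)),
    @S_nn k m (co (-q + h - c)), sq_nonneg (ex q 0)]

theorem bwd (hd : 1 ≤ d) (hk : k ≤ d ^ 2) (hc : IsClosed {u | Φ u}) (h : ∀ r, d < r →
    ∃ (T : E (k + m + n + 2) →ₗᵢ[ℝ] E (k + m + n + 2)) (h : E (k + m + n + 2)),
      ∀ a ∈ A k m n d, ∃ b ∈ B k m n d Φ, ‖T a + h - b‖ < r) :
    ∃ x, cube x ∧ ∀ y, cube y → ∃ z, cube z ∧ Φ (mk3 k m n x y z) := by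
  refine lim hc fun δ δ0 δ1 => ?_
  have d2 : 1 ≤ d ^ 2 := one_le_pow₀ hd
  obtain ⟨s, s0, hs⟩ : ∃ s, 0 < s ∧ s * (d ^ 2 + 4) = δ ^ 2 :=
    ⟨δ ^ 2 / (d ^ 2 + 4), by positivity, by field_simp⟩
  have s1 : s ≤ 1 / 5 := by nlinarith
  have q := Real.sq_sqrt (show 0 ≤ d ^ 2 + s ^ 2 by positivity)
  obtain ⟨T, h, H⟩ := h √(d ^ 2 + s ^ 2) (Real.lt_sqrt_of_sq_lt (by nlinarith))
  obtain ⟨sj, hh⟩ := pin hd hk (Real.sqrt_le_iff.2 ⟨by linarith, by nlinarith⟩) H
  rw [q] at hh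
  refine ⟨co h, fun y hy => ?_⟩
  obtain ⟨p, p0, p1, p2⟩ := pt (k := k) (m := m) (n := n) (ex h 0) (ex h 1) (co h)
    (fun i => (1 - δ) * y i) (co h)
  obtain ⟨a, ha, e⟩ := sj (p - h) (P0.2 ⟨by simp [ex_sub, p0], by simp [ex_sub, p1],
    (S_congr (v := 0) fun i hi => by simp only [co_sub, p2, Pi.sub_apply, mk_x hi]; simp).trans S0,
    (S_congr (v := 0) fun i hi => by simp [co_sub, p2, mk_z hi]).trans S0⟩)
  obtain ⟨b, hb, eb⟩ := H a ha
  have eb := pow_lt_pow_left₀ eb (norm_nonneg _) two_ne_zero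
  rw [e, sub_add_cancel, q, nsq, ex_sub, ex_sub, co_sub, p0, p1, p2] at eb
  have x1 : S 0 k (mk3 k m n (co h) (fun i => (1 - δ) * y i) (co h) - co b) = _ := Sx (· - ·)
  have x2 : S k m (mk3 k m n (co h) (fun i => (1 - δ) * y i) (co h) - co b) = _ := Sy (· - ·)
  have x3 : S (k + m) n (mk3 k m n (co h) (fun i => (1 - δ) * y i) (co h) - co b) = _ := Sz (· - ·)
  rw [x1, x2, x3] at eb
  have n1 := @S_nn 0 k fun i => co h i - co b i
  have n2 := @S_nn k m fun i => (1 - δ) * y i - co b i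
  have n3 := @S_nn (k + m) n fun i => co h i - co b i
  have n4 := @S_nn (k + m) n (co h)
  have s2 : s ^ 2 ≤ 1 / 25 := by nlinarith
  rcases hb with (⟨b1, b2, -⟩ | ⟨b1, -⟩) | ⟨b1, b2, b3, b4, b5⟩
  · have := S_le (o := k + m) (l := n) (f := co b) (g := fun i => co h i - co b i) (h := co h)
      (a := 1) (b := 2) (c := 2) fun i => by nlinarith [sq_nonneg (2 * co h i - co b i)]
    exfalso
    linarith [sq_nonneg (2 * ex h 0 - ex b 0), sq_nonneg (ex h 1), sq_nonneg (ex h 1 - ex b 1)]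
  · exfalso
    linarith [sq_nonneg (2 * ex h 1 - ex b 1), sq_nonneg (ex h 0), sq_nonneg (ex h 0 - ex b 0)]
  have := S_le (o := k + m) (l := n) (f := co b) (g := fun i => co h i - co b i) (h := co h)
    (a := s) (b := s * (1 + s)) (c := 1 + s) fun i => by
      nlinarith [sq_nonneg (s * (co h i - co b i) + co h i)]
  have k0 : s * ex b 0 ^ 2 ≤ s * (1 + s) * (ex h 0 - ex b 0) ^ 2 + (1 + s) * ex h 0 ^ 2 := by
    nlinarith [sq_nonneg (s * (ex h 0 - ex b 0) + ex h 0)]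
  have k1 : d ^ 2 ≤ (1 + s) * ((ex h 0 - ex b 0) ^ 2 + S (k + m) n fun i => co h i - co b i) +
      (1 + s) * s := le_of_mul_le_mul_left (by
    have := mul_le_mul_of_nonneg_left (show ex h 0 ^ 2 + S (k + m) n (co h) ≤ s ^ 2 by
      linarith [sq_nonneg (ex h 1)]) (show 0 ≤ 1 + s by linarith)
    rw [← b2]; linarith) s0
  have k2 : (S 0 k fun i => co h i - co b i) + (S k m fun i => (1 - δ) * y i - co b i) ≤ δ ^ 2 := by
    generalize (S 0 k fun i => co h i - co b i) = X at *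
    generalize (S k m fun i => (1 - δ) * y i - co b i) = Y at *
    generalize (S (k + m) n fun i => co h i - co b i) = Z at *
    have := mul_le_mul_of_nonneg_left (show X + Y + ((ex h 0 - ex b 0) ^ 2 + Z) ≤ d ^ 2 + s ^ 2 by
      linarith [sq_nonneg (ex h 1 - ex b 1)]) (show 0 ≤ 1 + s by linarith)
    nlinarith [mul_nonneg s0.le (add_nonneg n1 n2)]
  have y1 : ∀ i < m, |(1 - δ) * y (k + i) - co b (k + i)| ≤ δ := fun i hi =>
    abs_le.2 (abs_le_of_sq_le_sq' ((S_one (u := fun i => (1 - δ) * y i - co b i) hi).trans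
      (by linarith)) δ0.le)
  have y2 : ∀ i < m, |co b (k + i)| ≤ 1 := fun i hi => by
    have := abs_le.1 (y1 i hi)
    have := abs_le.1 ((abs_mul (1 - δ) _).trans_le (mul_le_mul (abs_of_nonneg (sub_nonneg.2 δ1)).le
      (hy (k + i)) (abs_nonneg _) (sub_nonneg.2 δ1)))
    rw [abs_le]; constructor <;> linarith
  have z : ∀ i, k + m + n ≤ i → co b i = 0 := fun i hi => dif_neg (by omega)
  refine ⟨co b, fun i => ?_, b5.resolve_right fun e => e fun i hi =>
    (sq_le_one_iff_abs_le_one _).2 (y2 i hi), fun i hi => ?_, fun i hi => ?_, z⟩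
  · rcases (by omega : i < k ∨ (i - k < m ∧ k + (i - k) = i) ∨ (i - (k + m) < n ∧
      k + m + (i - (k + m)) = i) ∨ k + m + n ≤ i) with e | ⟨e, f⟩ | ⟨e, f⟩ | e
    · simpa [sq_le_one_iff_abs_le_one] using b3 i e
    · exact f ▸ y2 _ e
    · exact f ▸ (sq_le_one_iff_abs_le_one _).1 (b4 _ e)
    · simp [z i e]
  · have := S_one (o := 0) (u := fun i => co h i - co b i) hi
    rw [abs_sub_comm]
    exact abs_le.2 (abs_le_of_sq_le_sq' (by simp only [zero_add] at this; linarith) δ0.le)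
  · have := abs_le.1 (y1 i hi)
    have := abs_le.1 ((abs_mul δ _).trans_le (mul_le_mul (abs_of_pos δ0).le (hy (k + i))
      (abs_nonneg _) δ0.le))
    rw [abs_le]; constructor <;> linarith

end Pool.Agent.H38.Hau
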