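import Pool.Agent.H38.ER.Defs2

/-!
Hausdorff distance of semialgebraic sets under translations and under isometries.
-/

namespace Pool.Agent.H38.Hau

open Pool.Agent.H38.ER

/-- All coordinates lie in `[-1, 1]`. -/
def cube (x : ℕ → ℝ) : Prop := ∀ i, |x i| ≤ 1

/-- `(k, m, n, φ)`: `φ` is a single polynomial equation, and there are values in `[-1, 1]` of the
first `k` variables such that for all values in `[-1, 1]` of the next `m` variables there are values
in `[-1, 1]` of the next `n` variables satisfying `φ`; further variables are read as zero. -/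
def BC (p : ℕ × ℕ × ℕ × Fm) : Prop := (∃ s t, p.2.2.2 = .eq s t) ∧
  ∃ x, cube x ∧ ∀ y, cube y → ∃ z, cube z ∧ p.2.2.2.Holds fun i => if i < p.1 then x i else
    if i < p.1 + p.2.1 then y i else if i < p.1 + p.2.1 + p.2.2.1 then z i else 0

/-- The subset of Euclidean `D`-space defined by `φ`; variables with an index `≥ D` are read as
zero. -/
def se (D : ℕ) (φ : Fm) : Set (EuclideanSpace ℝ (Fin D)) :=
  {v | φ.Holds fun i => if h : i < D then v ⟨i, h⟩ else 0}

/-- `(D, φ, ψ, d)`: some translate of `se D φ` has Hausdorff distance at most `d` from `se D ψ`. -/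
def TH (p : ℕ × Fm × Fm × ℚ) : Prop := 0 ≤ p.2.2.2 ∧ ∃ v : EuclideanSpace ℝ (Fin p.1),
  Metric.hausdorffEDist ((· + v) '' se p.1 p.2.1) (se p.1 p.2.2.1) ≤ ENNReal.ofReal p.2.2.2

/-- `(D, φ, ψ, d)`: the infimum over isometries `f`, `g` of Euclidean `D`-space of the Hausdorff
distance of `f (se D φ)` and `g (se D ψ)` is at most `d`. -/
def GH (p : ℕ × Fm × Fm × ℚ) : Prop := 0 ≤ p.2.2.2 ∧
  ⨅ (f : EuclideanSpace ℝ (Fin p.1) → EuclideanSpace ℝ (Fin p.1)) (_ : Isometry f)
    (g : EuclideanSpace ℝ (Fin p.1) → EuclideanSpace ℝ (Fin p.1)) (_ : Isometry g),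
    Metric.hausdorffEDist (f '' se p.1 p.2.1) (g '' se p.1 p.2.2.1) ≤ ENNReal.ofReal p.2.2.2

end Pool.Agent.H38.Hau
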