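import Pool.Agent.H38.Hau.Bas

/-!
The two sets and their distance.
-/

namespace Pool.Agent.H38.Hau

open Finset Filter Topology

variable (k m n : ℕ) (d : ℝ) (Φ : (ℕ → ℝ) → Prop)

def cb (o l : ℕ) (u : ℕ → ℝ) : Prop := ∀ i < l, u (o + i) ^ 2 ≤ 1

def InC (t w : ℝ) (u : ℕ → ℝ) : Prop :=
  w = 0 ∧ t ^ 2 + S (k + m) n u = 4 * d ^ 2 ∧ S 0 k u ≤ 4 * d ^ 2 ∨
    w ^ 2 = 441 * d ^ 2 ∧ t ^ 2 + S (k + m) n u = 0 ∧ S 0 k u ≤ d ^ 2

def InA (t w : ℝ) (u : ℕ → ℝ) : Prop := InC k m n d t w u ∨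
  S 0 k u + (t ^ 2 + S (k + m) n u) = 0 ∧ (w = 0 ∨ w ^ 2 = 400 * d ^ 2)

def InB (t w : ℝ) (u : ℕ → ℝ) : Prop := InC k m n d t w u ∨
  w = 0 ∧ t ^ 2 + S (k + m) n u = d ^ 2 ∧ cb 0 k u ∧ cb (k + m) n u ∧ (Φ u ∨ ¬ cb k m u)

def A : Set (E (k + m + n + 2)) := {p | InA k m n d (ex p 0) (ex p 1) (co p)}
def B : Set (E (k + m + n + 2)) := {p | InB k m n d Φ (ex p 0) (ex p 1) (co p)}

variable {k m n d Φ}

theorem Sx {x y z u : ℕ → ℝ} (f : ℝ → ℝ → ℝ) :
    S 0 k (fun i => f (mk3 k m n x y z i) (u i)) = S 0 k fun i => f (x i) (u i) :=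
  S_congr fun i hi => by simp only [mk_x hi]
theorem Sy {x y z u : ℕ → ℝ} (f : ℝ → ℝ → ℝ) :
    S k m (fun i => f (mk3 k m n x y z i) (u i)) = S k m fun i => f (y i) (u i) :=
  S_congr fun i hi => by simp only [mk_y hi]
theorem Sz {x y z u : ℕ → ℝ} (f : ℝ → ℝ → ℝ) :
    S (k + m) n (fun i => f (mk3 k m n x y z i) (u i)) = S (k + m) n fun i => f (z i) (u i) :=
  S_congr fun i hi => by simp only [mk_z hi]
theorem Sx' {x y z : ℕ → ℝ} : S 0 k (mk3 k m n x y z) = S 0 k x := Sx (u := 0) fun a _ => a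
theorem Sy' {x y z : ℕ → ℝ} : S k m (mk3 k m n x y z) = S k m y := Sy (u := 0) fun a _ => a
theorem Sz' {x y z : ℕ → ℝ} : S (k + m) n (mk3 k m n x y z) = S (k + m) n z :=
  Sz (u := 0) fun a _ => a
theorem S0 {o l} : S o l 0 = 0 := by simp [S]

theorem near {p q : E (k + m + n + 2)} (hd : 0 ≤ d) {a b c e f : ℝ} (h0 : ex p 0 - ex q 0 = a)
    (h1 : ex p 1 - ex q 1 = b) (h2 : S 0 k (co p - co q) = c) (h3 : S k m (co p - co q) = e)
    (h4 : S (k + m) n (co p - co q) = f) (h : a ^ 2 + b ^ 2 + c + e + f ≤ d ^ 2) :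
    edist p q ≤ ENNReal.ofReal d := by
  rw [edist_dist, dist_eq_norm]
  refine ENNReal.ofReal_le_ofReal (abs_le_of_sq_le_sq' ?_ hd).2
  rwa [nsq, ex_sub, ex_sub, co_sub, h0, h1, h2, h3, h4]

theorem sq1 {x : ℕ → ℝ} (h : cube x) (i) : x i ^ 2 ≤ 1 := (sq_le_one_iff_abs_le_one _).2 (h i)

theorem fwd (hd : 0 ≤ d) (hk : k ≤ d ^ 2) (hn : n ≤ d ^ 2)
    (h : ∃ x, cube x ∧ ∀ y, cube y → ∃ z, cube z ∧ Φ (mk3 k m n x y z)) :
    ∃ v, Metric.hausdorffEDist ((· + v) '' A k m n d) (B k m n d Φ) ≤ ENNReal.ofReal d := by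
  obtain ⟨x, hx, h⟩ := h
  obtain ⟨v, v0, v1, v2⟩ := pt (k := k) (m := m) (n := n) 0 0 x 0 0
  have sx : S 0 k x ≤ d ^ 2 := (S_bd fun i _ => sq1 hx _).trans (by simpa)
  have nv : ∀ a, edist (a + v) a ≤ ENNReal.ofReal d := fun a => near hd (a := 0) (b := 0) (e := 0)
    (f := 0) (by simp [ex_add, v0]) (by simp [ex_add, v1]) (by simp [co_add, v2, Sx']; rfl)
    (by simp [co_add, v2, Sy', S0]) (by simp [co_add, v2, Sz', S0]) (by simpa)
  refine ⟨v, Metric.hausdorffEDist_le_of_mem_edist ?_ fun b hb => ?_⟩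
  · rintro _ ⟨a, ha | ⟨h1, h2⟩, rfl⟩
    · exact ⟨a, .inl ha, nv a⟩
    have n1 := @S_nn 0 k (co a)
    have n2 := @S_nn (k + m) n (co a)
    have a0 : ex a 0 = 0 := by nlinarith
    have a1 : S 0 k (co a) = 0 := by nlinarith
    have a2 : S (k + m) n (co a) = 0 := by simpa [a0, a1] using h1
    have c : ∀ (b : E (k + m + n + 2)) z, co b = mk3 k m n x (co a) z →
        S 0 k (co (a + v) - co b) = 0 ∧ S k m (co (a + v) - co b) = 0 ∧
        S (k + m) n (co (a + v) - co b) = S (k + m) n z := fun b z e => by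
      rw [co_add, v2, e]
      exact ⟨(S_congr (v := 0) fun i hi => by
          simp only [Pi.sub_apply, Pi.add_apply, mk_x hi, S_zero a1 hi]; simp).trans S0,
        (S_congr (v := 0) fun i hi => by simp [mk_y hi]).trans S0,
        S_congr fun i hi => by simp [mk_z hi, S_zero a2 hi]⟩
    rcases h2 with h2 | h2
    · obtain ⟨z, hz, e⟩ : ∃ z, cube z ∧ (Φ (mk3 k m n x (co a) z) ∨ ¬ cb k m (co a)) := by
        by_cases hy : cb k m (co a)
        · obtain ⟨z, hz, e⟩ := h (mk3 k m n 0 (co a) 0) fun i => by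
            unfold mk3; split_ifs with p q <;> try simp
            have := hy (i - k) (by omega)
            rwa [show k + (i - k) = i by omega, sq_le_one_iff_abs_le_one] at this
          refine ⟨z, hz, .inl ?_⟩
          convert e using 1
          funext i; unfold mk3; split_ifs <;> rfl
        · exact ⟨0, fun _ => by simp, .inr hy⟩
      have sz : S (k + m) n z ≤ d ^ 2 := (S_bd fun i _ => sq1 hz _).trans (by simpa)
      obtain ⟨b, b0, b1, b2⟩ := pt (k := k) (m := m) (n := n) √(d ^ 2 - S (k + m) n z) 0 x (co a) z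
      have q := Real.sq_sqrt (sub_nonneg.2 sz)
      obtain ⟨c1, c2, c3⟩ := c b z b2
      refine ⟨b, .inr ⟨b1, by rw [b0, b2, Sz', q]; ring, fun i hi => ?_, fun i hi => ?_, ?_⟩,
        near hd rfl rfl c1 c2 c3 (by simp [ex_add, a0, v0, h2, v1, b0, b1, q])⟩
      · rw [b2, mk_x hi]; exact sq1 hx _
      · rw [b2, mk_z hi]; exact sq1 hz _
      · rw [b2]
        exact e.imp_right fun e f => e fun i hi => by simpa only [mk_y hi] using f i hi
    · obtain ⟨b, b0, b1, b2⟩ := pt (k := k) (m := m) (n := n) 0 (21 / 20 * ex a 1) x (co a) 0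
      obtain ⟨c1, c2, c3⟩ := c b 0 b2
      refine ⟨b, .inl (.inr ⟨by rw [b1]; linarith, by simp [b0, b2, Sz', S0], by rwa [b2, Sx']⟩),
        near hd rfl rfl c1 c2 c3 ?_⟩
      simp only [ex_add, a0, v0, v1, b0, b1, S0]; linarith
  · rcases hb with hb | ⟨h1, h2, h3, -⟩
    · exact ⟨b + v, ⟨b, .inl hb, rfl⟩, by rw [edist_comm]; exact nv b⟩
    obtain ⟨a, a0, a1, a2⟩ := pt (k := k) (m := m) (n := n) (2 * ex b 0) 0 (co b - x) (co b)
      (co b + co b)
    have e : S (k + m) n (co b + co b) = 4 * S (k + m) n (co b) := by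
      simp only [S, mul_sum, Pi.add_apply]; exact sum_congr rfl fun _ _ => by ring
    refine ⟨a + v, ⟨a, .inl (.inl ⟨a1, by rw [a0, a2, Sz', e]; linarith, ?_⟩), rfl⟩,
      near hd (c := 0) (e := 0) (f := S (k + m) n (co b)) rfl rfl ?_ ?_ ?_ ?_⟩
    · rw [a2, Sx']
      refine (S_bd (c := 4) fun i hi => ?_).trans (by linarith)
      have := h3 i hi; have := sq1 hx (0 + i)
      simp only [Pi.sub_apply]; nlinarith [sq_nonneg (co b (0 + i) + x (0 + i))]
    · rw [co_add, v2, a2]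
      exact (S_congr (v := 0) fun i hi => by
        simp only [Pi.sub_apply, Pi.add_apply, mk_x hi]; simp).trans S0
    · rw [co_add, v2, a2]
      exact (S_congr (v := 0) fun i hi => by simp [mk_y hi]).trans S0
    · rw [co_add, v2, a2]
      exact S_congr fun i hi => by simp [mk_z hi]
    · simp only [ex_add, a0, a1, v0, v1, h1]; linarith

end Pool.Agent.H38.Hau
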