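import Pool.Agent.H38.Hau.Bwd

/-!
The reduction.
-/

namespace Pool.Agent.H38.Hau

open Pool.Agent.H38.NP Pool.Agent.H38.ER Finset

def upT : Tm → Tm
  | .var i => .var (i + 2)
  | .num n => .num n
  | .add s t => .add (upT s) (upT t)
  | .mul s t => .mul (upT s) (upT t)
  | .neg s => .neg (upT s)

def upC (t : ℕ × Bin) : ℕ × Bin := if t.1 = 0 then (0, ⟨t.2.val + (Bin.mk 2).val⟩) else t

theorem upT_code (s : Tm) : (upT s).code = s.code.map upC := by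
  induction s <;> simp [upT, Tm.code, upC, *]

theorem upT_ev (u : ℕ → ℝ) (s : Tm) : (upT s).ev u = s.ev fun i => u (i + 2) := by
  induction s <;> simp [upT, Tm.ev, *]

theorem ev_cont (s : Tm) : Continuous fun u : ℕ → ℝ => s.ev u := by
  induction s <;> simp only [Tm.ev] <;> fun_prop

def cl : Fm → Fm
  | .eq s t => .eq (upT s) (upT t)
  | _ => .lt (.num 0) (.num 0)

theorem pt_cl : PT cl := by
  have h : PT fun φ : Fm => φ.code := pt_fcode PT.id'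
  have : PT fun φ : Fm => cond ((φ.code.reverse.getD 0 (0, ⟨0⟩)).1 == 6) (φ.code.map upC)
      (Fm.lt (.num 0) (.num 0)).code := by unfold upC; fun_prop
  refine this.recast' fun φ => congrArg enc ?_
  cases φ <;> simp [cl, Fm.code, upT_code, upC]

theorem pt_num {α : Type} [Enc α] {f : α → ℕ} (h : PT f) : PT fun a => Tm.num (f a) :=
  (PT.cons ((PT.const 1).mk (pt_bin h)) (PT.const [])).recast' fun _ => rfl

def sT (o l : ℕ) : Tm := sumT ((List.range l).map fun i => (Tm.var (o + i + 2)).mul (.var (o + i + 2)))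
def cF (o l : ℕ) : Fm := allF ((List.range l).map fun i =>
  (Fm.lt (.num 1) ((Tm.var (o + i + 2)).mul (.var (o + i + 2)))).not)
def rT (o l : ℕ) : Tm := ((Tm.var 0).mul (.var 0)).add (sT o l)
def wT : Tm := (Tm.var 1).mul (.var 1)

theorem ev_sT {o l u} : (sT o l).ev u = S o l fun i => u (i + 2) := by
  simp only [sT, ev_sumT, List.map_map, S, sq]; rfl

theorem holds_cF {o l u} : (cF o l).Holds u ↔ cb o l fun i => u (i + 2) := by
  simp only [cF, holds_allF, List.forall_mem_map, List.mem_range, Fm.Holds, Tm.ev, not_lt, cb, sq,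
    Nat.cast_one]

def fC (k m n : ℕ) (e : Tm) : Fm :=
  ((Fm.eq (.var 1) (.num 0)).and ((Fm.eq (rT (k + m) n) ((Tm.num 4).mul e)).and
    (Fm.lt ((Tm.num 4).mul e) (sT 0 k)).not)).or
  ((Fm.eq wT ((Tm.num 441).mul e)).and ((Fm.eq (rT (k + m) n) (.num 0)).and (Fm.lt e (sT 0 k)).not))

def fA (k m n : ℕ) (e : Tm) : Fm := (fC k m n e).or
  ((Fm.eq ((sT 0 k).add (rT (k + m) n)) (.num 0)).and ((Fm.eq (.var 1) (.num 0)).or
    (Fm.eq wT ((Tm.num 400).mul e))))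

def fB (k m n : ℕ) (e : Tm) (φ : Fm) : Fm := (fC k m n e).or
  ((Fm.eq (.var 1) (.num 0)).and ((Fm.eq (rT (k + m) n) e).and ((cF 0 k).and ((cF (k + m) n).and
    (φ.or (cF k m).not)))))

def red (p : ℕ × ℕ × ℕ × Fm) : ℕ × Fm × Fm × ℚ := (p.1 + p.2.1 + p.2.2.1 + 2,
  fA p.1 p.2.1 p.2.2.1 ((Tm.num (p.1 + p.2.2.1 + 1)).mul (.num (p.1 + p.2.2.1 + 1))),
  fB p.1 p.2.1 p.2.2.1 ((Tm.num (p.1 + p.2.2.1 + 1)).mul (.num (p.1 + p.2.2.1 + 1))) (cl p.2.2.2),
  ((p.1 + p.2.2.1 + 1 : ℕ) : ℤ))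

theorem pt_red : PT red := by
  have h1 : PT fun p : ℕ × ℕ × ℕ × Fm => Tm.num (p.1 + p.2.2.1 + 1) := pt_num (by fun_prop)
  have h2 : PT fun p : ℕ × ℕ × ℕ × Fm => cl p.2.2.2 := pt_cl.comp (by fun_prop)
  unfold red fA fB fC rT sT cF
  fun_prop

theorem main (p : ℕ × ℕ × ℕ × Fm) : (BC p → TH (red p)) ∧ (TH (red p) → GH (red p)) ∧
    (GH (red p) → BC p) := by
  obtain ⟨k, m, n, φ⟩ := p
  obtain ⟨d, hd⟩ : ∃ d : ℝ, d = ((k + n + 1 : ℕ) : ℝ) := ⟨_, rfl⟩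
  have d1 : 1 ≤ d := by rw [hd]; exact_mod_cast Nat.le_add_left _ _
  have dk : (k : ℝ) + n ≤ d ^ 2 := by
    have : (k : ℝ) + n ≤ d := by rw [hd]; push_cast; linarith
    nlinarith
  have k0 : (0 : ℝ) ≤ k := Nat.cast_nonneg _
  have n0 : (0 : ℝ) ≤ n := Nat.cast_nonneg _
  let Φ : (ℕ → ℝ) → Prop := fun u => (∃ s t, φ = .eq s t) ∧ φ.Holds u
  have eA : se (k + m + n + 2) (red (k, m, n, φ)).2.1 = A k m n d := by
    ext p
    simp only [se, red, fA, fC, rT, wT, Fm.Holds, Tm.ev, ev_sT, not_lt, ← hd, A, InA, InC, ← sq,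
      Set.mem_ofPred_eq, Nat.cast_ofNat, Nat.cast_zero]
    rfl
  have eB : se (k + m + n + 2) (red (k, m, n, φ)).2.2.1 = B k m n d Φ := by
    ext p
    have : ∀ u : ℕ → ℝ, (cl φ).Holds u ↔ Φ fun i => u (i + 2) := fun u => by
      cases φ <;> simp [cl, Φ, Fm.Holds, upT_ev, Tm.ev]
    simp only [se, red, fB, fC, rT, wT, Fm.Holds, Tm.ev, ev_sT, not_lt, ← hd, B, InB, InC, ← sq,
      Set.mem_ofPred_eq, Nat.cast_ofNat, Nat.cast_zero, holds_cF, this]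
    rfl
  have eD : (((red (k, m, n, φ)).2.2.2 : ℚ) : ℝ) = d := by simp [red, hd]
  refine ⟨fun ⟨h0, x, hx, h⟩ => ⟨by simp only [red]; positivity, ?_⟩, fun ⟨h0, v, h⟩ => ⟨h0, ?_⟩,
    fun ⟨_, h⟩ => ?_⟩
  · rw [eD]
    obtain ⟨v, hv⟩ := fwd (k := k) (m := m) (n := n) (d := d) (Φ := Φ) (by linarith) (by linarith) (by linarith)
      ⟨x, hx, fun y hy => (h y hy).imp fun z hz => ⟨hz.1, h0, hz.2⟩⟩
    exact ⟨v, by rwa [← eA, ← eB] at hv⟩
  · refine iInf₂_le_of_le (· + v) (isometry_add_right v) (iInf₂_le_of_le id isometry_id ?_)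
    rwa [Set.image_id]
  · obtain ⟨x, hx, H⟩ := bwd (k := k) (m := m) (n := n) (Φ := Φ) d1 (by linarith) (by
      cases φ <;> simp [Φ, Fm.Holds]
      exact isClosed_eq (ev_cont _) (ev_cont _)) fun r hr => by
      rw [eD] at h
      have := h.trans_lt ((ENNReal.ofReal_lt_ofReal_iff (by linarith)).2 hr)
      simp only [iInf_lt_iff] at this
      obtain ⟨f, hf, g, hg, e⟩ := this
      obtain ⟨T, h, i⟩ := iso (D := k + m + n + 2) hf hg
      refine ⟨T, h, fun a ha => ?_⟩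
      obtain ⟨_, ⟨b, hb, rfl⟩, e⟩ := Metric.exists_edist_lt_of_hausdorffEDist_lt
        (Set.mem_image_of_mem f (eA.ge ha)) e
      exact ⟨b, eB.le hb, (i a b).symm.trans_lt (edist_lt_ofReal.1 e)⟩
    obtain ⟨_, -, h0, -⟩ := H 0 fun _ => by simp
    exact ⟨h0, x, hx, fun y hy => (H y hy).imp fun z hz => ⟨hz.1, hz.2.2⟩⟩

theorem nb : ¬ BC (0, 0, 0, .lt (.num 0) (.num 0)) := fun ⟨⟨_, _, h⟩, _⟩ => by simp at h

theorem th_hard : QHardOn BC (fun _ => True) TH :=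
  qhard_of_pt red pt_red _ nb fun p => have := main p; ⟨trivial, this.1, fun h => this.2.2 (this.2.1 h)⟩

theorem gh_hard : QHardOn BC (fun _ => True) GH :=
  qhard_of_pt red pt_red _ nb fun p => have := main p; ⟨trivial, fun h => this.2.1 (this.1 h), this.2.2⟩

end Pool.Agent.H38.Hau
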